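import Pool.Agent.H47S.Xb73301BothFail

namespace Pool.Agent.Results.MP_9d0418_gt.NotSigmaDiscrete

open Pool.Agent.Results.MP_b73301_gt.BothFail
open Set Topology Filter
open T

theorem result :
    (∃ (S : Type) (_ : Group S), FDC S ∧ ∃ n, ¬ SigmaDiscrete (semiZariski S) (Sle S n)) :=
  parts.2

end Pool.Agent.Results.MP_9d0418_gt.NotSigmaDiscrete
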